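import Pool.Agent.Y674.TR.Stm

set_option autoImplicit false

namespace Pool.Agent.Y986.TR

open Pool.Agent.Y674.TR

theorem sel : SEL := by
  intro ι _ _ T hcard i₀ s δ hδ h
  classical
  choose! tau htT hts using h
  have hr : ∀ t : ℂ, ∃ j : ι, (∃ i, i ≠ i₀ ∧ tau i = t) → j ≠ i₀ ∧ tau j = t := by
    intro t
    by_cases ht : ∃ i, i ≠ i₀ ∧ tau i = t
    · obtain ⟨i, hi⟩ := ht
      exact ⟨i, fun _ => hi⟩
    · exact ⟨i₀, fun h' => absurd h' ht⟩
  choose r hr using hr
  have key : ∀ i, i ≠ i₀ → r (tau i) ≠ i₀ ∧ tau (r (tau i)) = tau i :=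
    fun i hi => hr _ ⟨i, hi, rfl⟩
  let rep : ι → ι := fun i => if i = i₀ then i₀ else r (tau i)
  have rep0 : rep i₀ = i₀ := by simp [rep]
  have rep1 : ∀ i, i ≠ i₀ → rep i = r (tau i) := fun i hi => by simp [rep, hi]
  refine ⟨rep, ?_, rep0, ?_, ?_⟩
  · intro i
    by_cases hi : i = i₀
    · subst hi
      rw [rep0, rep0]
    · rw [rep1 i hi, rep1 _ (key i hi).1, (key i hi).2]
  · intro i
    by_cases hi : i = i₀
    · subst hi
      rw [rep0]
      simpa using by linarith
    · rw [rep1 i hi]
      have h1 := hts i hi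
      have h2 := hts _ (key i hi).1
      rw [(key i hi).2] at h2
      have h3 : s i - s (r (tau i)) = (s i - tau i) - (s (r (tau i)) - tau i) := by ring
      rw [h3]
      calc _ ≤ ‖s i - tau i‖ + ‖s (r (tau i)) - tau i‖ := norm_sub_le _ _
        _ ≤ 2 * δ := by linarith
  · have hsub : (Finset.univ.filter fun i => rep i = i) ⊆ insert i₀ (T.image r) := by
      intro i hi
      have hi' := (Finset.mem_filter.1 hi).2
      by_cases h0 : i = i₀
      · subst h0; exact Finset.mem_insert_self _ _
      · rw [rep1 i h0] at hi'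
        exact Finset.mem_insert_of_mem (Finset.mem_image.2 ⟨tau i, htT i h0, hi'⟩)
    have h1 : (Finset.univ.filter fun i => rep i = i).card ≤ T.card + 1 :=
      (Finset.card_le_card hsub).trans
        ((Finset.card_insert_le _ _).trans (Nat.succ_le_succ Finset.card_image_le))
    have h2 := Finset.card_filter_add_card_filter_not (s := (Finset.univ : Finset ι))
      (fun i => rep i = i)
    rw [Finset.card_univ, hcard] at h2
    have h3 : (Finset.univ.filter fun i => rep i ≠ i).card =
      (Finset.univ.filter fun i => ¬ rep i = i).card := rfl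
    omega

end Pool.Agent.Y986.TR
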